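import Mathlib
import Pool.Agent.Q157.DD.Ds

/-!
# Job DD-sol (project DD of helper157): the group `G32` is solvable
-/

set_option autoImplicit false

namespace Pool.Agent.Q182.DD

open Equiv Pool.Agent.Q157.SC Pool.Agent.Q157.DD

theorem fst_congr {g : Perm P32} (hg : g ∈ G32) {x y : P32} (h : x.1 = y.1) : (g x).1 = (g y).1 :=
  (hg.1 x y).1 h

theorem snd_congr {g : Perm P32} (hg : g ∈ G32) {x y : P32} (h : x.1 = y.1) (h' : x.2.1 = y.2.1) :
    (g x).1 = (g y).1 ∧ (g x).2.1 = (g y).2.1 :=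
  (hg.2 x y).1 ⟨h, h'⟩

/-- the action on the first coordinate -/
@[instance_reducible] def act1 : MulAction G32 Bool where
  smul g b := (g.1 (b, 0, 0)).1
  one_smul _ := rfl
  mul_smul g h b := fst_congr g.2 (x := h.1 (b, 0, 0)) (y := ((h.1 (b, 0, 0)).1, 0, 0)) rfl

theorem fix1 {g : Perm P32} (hg : g ∈ ds G32 1) (x : P32) : (g x).1 = x.1 := by
  have h1 := ds_hom G32 (@MulAction.toPermHom G32 Bool _ act1) 1
    ((perm_small (Y := Bool)).2.2 (by rw [Nat.card_eq_fintype_card]; decide)) g hg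
  have h2 : (g (x.1, 0, 0)).1 = x.1 := Perm.congr_fun h1 x.1
  have h3 : g ∈ G32 := ds_le G32 1 hg
  exact (fst_congr h3 (x := x) (y := (x.1, 0, 0)) rfl).trans h2

/-- the action on the second coordinate -/
@[instance_reducible] def act2 (b : Bool) : MulAction (ds G32 1) (Fin 4) where
  smul g i := (g.1 (b, i, 0)).2.1
  one_smul _ := rfl
  mul_smul g h i :=
    (snd_congr (ds_le G32 1 g.2) (x := h.1 (b, i, 0)) (y := (b, (h.1 (b, i, 0)).2.1, 0))
      (fix1 h.2 _) rfl).2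

theorem fix2 {g : Perm P32} (hg : g ∈ ds G32 4) (x : P32) : (g x).1 = x.1 ∧ (g x).2.1 = x.2.1 := by
  have hg' : g ∈ ds (ds G32 1) 3 := by
    rw [← ds_add]
    exact hg
  have h0 : g ∈ ds G32 1 := ds_le _ 3 hg'
  have h1 := ds_hom (ds G32 1) (@MulAction.toPermHom (ds G32 1) (Fin 4) _ (act2 x.1)) 3
    perm4 g hg'
  have h2 : (g (x.1, x.2.1, 0)).2.1 = x.2.1 := Perm.congr_fun h1 x.2.1
  refine ⟨fix1 h0 x, ?_⟩
  have h3 := (snd_congr (ds_le G32 1 h0) (x := x) (y := (x.1, x.2.1, 0)) rfl rfl).2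
  rw [h3, h2]

theorem fix3 : ds G32 7 = ⊥ := by
  rw [eq_bot_iff]
  intro g hg
  have hg' : g ∈ ds (ds G32 4) 3 := by
    rw [← ds_add]
    exact hg
  rw [Subgroup.mem_bot]
  apply Equiv.ext
  intro x
  refine ds_fix (ds G32 4) (fun y => y.1 = x.1 ∧ y.2.1 = x.2.1) ?_ 3 ?_ g hg' x ⟨rfl, rfl⟩
  · intro k hk y hy
    obtain ⟨h1, h2⟩ := fix2 hk y
    exact ⟨h1.trans hy.1, h2.trans hy.2⟩
  · refine (perm_small (Y := {y : P32 // y.1 = x.1 ∧ y.2.1 = x.2.1})).1 ?_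
    have h1 : Function.Injective (fun y : {y : P32 // y.1 = x.1 ∧ y.2.1 = x.2.1} => y.1.2.2) := by
      intro y z hyz
      apply Subtype.ext
      refine Prod.ext (y.2.1.trans z.2.1.symm) (Prod.ext (y.2.2.trans z.2.2.symm) hyz)
    have h2 := Nat.card_le_card_of_injective _ h1
    rwa [Nat.card_fin] at h2

theorem sol : S_sol := by
  unfold S_sol
  rw [Group.isSolvable_def]
  exact ⟨7, derived_eq_bot.2 fix3⟩

end Pool.Agent.Q182.DD
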